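import Pool.Agent.R940.HPred

/-!
# Full faithfulness of the Hodge realization on the products of a variety with the powers of a variety
of CM type: one power suffices

Let `X` be any smooth projective complex variety whose cohomology is of CM type (an abelian variety
with complex multiplication, a Fermat variety, a K3 surface of CM type, a product of such, and so on),
`b` the sum of its Betti numbers, and let `Z` be ANY smooth projective variety, of dimension `e`
(for which nothing is known in general: the theorem of Deligne covers only abelian varieties and what
is built from them). Put `N = b * (4 * b ^ 2 + 4 * e + 1) ^ b`. The theorem says that for all `n`

1. all Hodge classes on `Z × X ^ (n + 1)` are contained in the algebra generated by the pull-backs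
   of the Hodge classes on the varieties `Z × X ^ (m + 1)` with `m + 1 ≤ N` under the projections to
   `Z` and to `m + 1` of the `n + 1` factors `X`;
2. if all Hodge classes on the single variety `Z × X ^ N` have a property `Q` of classes of degree
   `2 j` on varieties which is preserved by linear combinations, products and pull-backs, then all
   Hodge classes on `Z × X ^ (n + 1)` have the property `Q`. This applies to the property to be
   absolutely Hodge (see the definition `ClassFam.absolute` in the file `Pool.Agent.R940.HPred`), to
   the property to be motivated (`ClassFam.motivated`), and to the property to be the class of an
   algebraic cycle.

The bound does not depend on anything but `b` and `e`: not on the CM fields or their degrees, not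
on the CM types, and not on the Hodge structure of `Z`.

A Hodge theory `T` is a Weil cohomology theory with rational coefficients and a Hodge decomposition
(see `HodgeTheory` in the file `Pool.Agent.Y121.AHS.Defs`); in the intended use it is the singular
cohomology with rational coefficients of the smooth projective complex varieties.

The proof: over a finite Galois extension `L` of the rational numbers there is a basis of the
cohomology of `X` such that under each embedding of `L` into the complex numbers the basis elements
have pure types. A class on `Z × X ^ (n + 1)` is a sum of products `z × (x_1 × ... × x_(n + 1))`
of classes `z` on `Z` and basis elements. If it is a Hodge class then the single terms are Hodge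
classes with coefficients in `L`: their conjugates for all embeddings are of type `(J, J)`.
If `n + 1 > N` then, since the types of the classes on `Z` are bounded by `e`, there is a
proper nonempty set of factors such that the product of the corresponding `x_i` is by itself a Hodge
class with coefficients in `L`: this follows from the pigeonhole principle, for all embeddings at
the same time, applied to the multiples of the relative frequencies of the basis elements. Finally
Hodge classes with coefficients in `L` are combinations of rational Hodge classes, by Galois
descent.
-/

open CategoryTheory AlgebraicGeometry

universe u

namespace Pool.Agent.Results.MP_0da4e0_ag.BoundedGenerationCM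

open Pool.Agent.H914 Pool.Agent.H914.VarClass Pool.Agent.H914.VarClass.Obj
  Pool.Agent.H914.WeilCohomology Pool.Agent.Y121.AHS Pool.Agent.R940
open Pool.Agent.Y163 (pw)

theorem result {k : Type u} [Field k] {𝒱 : VarClass k} {ops : CycleOps 𝒱} (T : HodgeTheory ops)
    (hT : NonnegTypes T) (X : 𝒱.Obj) (hX : IsCM T X) (Z : 𝒱.Obj) (N : ℕ)
    (hN : N = hodgeBound (Module.finrank T.W.K (T.W.H X)) Z.dim) (n : ℕ) :
    HodgeGenerated T Z X N n ∧
    ∀ Q : ClassFam T, HodgeIn Q (Z.prod (pw X (N - 1))) → HodgeIn Q (Z.prod (pw X n)) := by
  subst hN
  exact ⟨fun j c hc => hodge_gen hT hX n hc, fun Q h => hodge_red_fam hT hX Q h n⟩

end Pool.Agent.Results.MP_0da4e0_ag.BoundedGenerationCM
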