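import Pool.Agent.R919.AH.Full

/-!
# MP_0da4e0_ag: full faithfulness of the Hodge realization on the tannakian category generated by an
arbitrary motive and all but few elliptic curves

Let `M j`, for `j` in a set `J` of indices, be motives for absolute Hodge cycles over an algebraically
closed field `k` with an embedding `σ` into the complex numbers, `V j = H_σ (M j)`, a polarized rational
Hodge structure, and let `o` be a distinguished index. The motive `M o` is ARBITRARY. The family of the
`V j` with `j ≠ o` is an **arbitrary independent family** (`IndependentFamily`), for example
`M j = h^1(E_j)` for arbitrary pairwise non-isogenous elliptic curves `E_j`, with or without complex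
multiplication, all elliptic curves over `k` up to isogeny.

The theorem: there is a set `S` of at most `dim V o / 2` exceptional indices such that the Hodge
realization is full on the tannakian category generated by ALL the `M j` with `j` not in `S`, if and only
if it is full on the tannakian category generated by `M o`. For the `M j` with `j ≠ o` one by one the
fullness is the theorem of Deligne, and it is a hypothesis.

So, if Q1 is true for the motives generated by one motive `M`, it is true for the motives generated by
`M` and all elliptic curves over `k` but at most `dim H_σ (M) / 2` (up to isogeny). The bound depends only on
the dimension of `H_σ (M)`, and not on a variety of which `M` is a direct factor.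

`𝒞` is the set of the conjugates: for each other embedding `τ` of `k`, or each automorphism, the Hodge
structures `H_τ (M j)` with the comparison isomorphisms (de Rham and `ℓ`-adic for all `ℓ`, at once).
`absClasses V 𝒞 f` are the Hodge classes in the tensor product of the `V (f x)` which are absolutely
Hodge, and `FullOn V 𝒞 W` says that all Hodge classes in the tensor products of the `V j` with `j` in `W`
are absolutely Hodge; these are the morphisms from the twists of the unit object, and since the objects
are polarized, duals are twists, and these classes give all morphisms.
-/

namespace Pool.Agent.Results.MP_0da4e0_ag.FewExceptionalFactors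

open Pool.Agent.R919.FE Pool.Agent.R919.AH

theorem result {J : Type} [DecidableEq J] {B : J → Type} [∀ j, Fintype (B j)]
    [∀ j, DecidableEq (B j)] (V : ∀ j, HodgeStructure (B j)) (o : J)
    (h : IndependentFamily V o) :
    ∃ S : Finset J, o ∉ S ∧ 2 * S.card ≤ Fintype.card (B o) ∧
      ∀ 𝒞 : Set (Conjugate B), (∀ j ∉ S, j ≠ o → FullOn V 𝒞 {j}) →
        (FullOn V 𝒞 {j | j ∉ S} ↔ FullOn V 𝒞 {o}) :=
  full V h

end Pool.Agent.Results.MP_0da4e0_ag.FewExceptionalFactors
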