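import Pool.Agent.R936.Sm.Full

/-!
# Full faithfulness of the Hodge realization: motives of bounded level and motives of CM type

Let `X i`, `i ∈ I`, be a family (finite or infinite) of smooth projective varieties of CM type (for
instance of abelian varieties with complex multiplication by subfields of one CM field), such that the
Hodge group of the sum of the Hodge structures `H(X i)` is of dimension at most `R`, and such that all
Hodge classes on the products in which at most `R + 1` different members occur are absolutely Hodge (for
abelian varieties this is the theorem of Deligne).

*Theorem.* There is one product `Y` of members of the family such that, for every `ℓ` and every motive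
`M = (Z, γ, m)` for absolute Hodge cycles of level at most `ℓ` (`h^(p,q)(M) = 0` for `|p - q| > ℓ`), for
instance of weight at most `ℓ`, of any kind: the Hodge realization is full on the groups
`Hom(N, M ⊗ N')`, for all twists `N` and `N'` of motives of products of members of the family, if and
only if it is full on the groups `Hom(1(r), M ⊗ h(Y ^ ℓ))` (for `ℓ = 0` read `h(Y)`). The variety `Z`
may be of any dimension.

Indeed `Hom(h(P'), M ⊗ h(P)(r)) = Hom(1, M ⊗ h(P' × P)(r'))`, and the Hodge classes of
`H(M) ⊗ H(P)` are the classes `γ ∘ c`, where `c` is a Hodge class on `Z × P`, so that `FullOn D γ P` says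
that the realization is full on `Hom(1(r), M ⊗ h(P))` for all `r`.

*Proof.* Let `c` be a Hodge class on `Z × P`. It is, over a splitting field `L`, a sum of classes
`z_a ⊗ w_a`, where the `w_a` form a basis of `H(P) ⊗ L` of products of eigenvectors, and
`γ ∘ c` is the sum of the `γ(z_a) ⊗ w_a`. If `γ(z_a)` is not zero then the differences of the Hodge types
of all conjugates of `z_a`, so of `w_a`, are bounded by the level, and there is a product `b` of
eigenvectors on `Y ^ ℓ` with the same differences (`Y` is given by a lemma of Dickson type). The class
`z_a ⊗ b` is a combination of Hodge classes, so by hypothesis `γ(z_a) ⊗ b` is a combination of absolutely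
Hodge classes. The contraction with the class `b' ⊗ w_a`, where `b'` is dual to `b`, a combination of
Hodge classes on a product of members of the family, which are absolutely Hodge by the reduction to few
different factors, shows that `γ(z_a) ⊗ w_a` is a combination of absolutely Hodge classes.
-/

universe u w

namespace Pool.Agent.Results.MP_0da4e0_ag.MotivesOfBoundedLevel

open H914 Y121.AHS R936.Sm VarClass Obj WeilCohomology

/-- **Full faithfulness for motives of bounded level and motives of CM type**: for a family of varieties
of CM type with a Hodge group of dimension at most `R`, for which the Hodge classes on the products with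
at most `R + 1` different factors are absolutely Hodge, there is one product `Y` of members such that,
for every motive `(Z, γ)` of level at most `ℓ`, the power `Y ^ ℓ` decides for all products of
members of the family. -/
theorem result {k : Type u} [Field k] {𝒱 : VarClass k} {ops : CycleOps 𝒱} (T : HodgeTheory ops)
    (D : Conjugates T) (hpos : NonnegTypes T) {I : Type w} [Nonempty I] (X : I → 𝒱.Obj)
    (hX : ∀ i, IsCM T (X i)) (R : ℕ) (hR : HgDimLe T X R)
    (h : ∀ i L, (∃ F : Finset I, F.card ≤ R + 1 ∧ ∀ j ∈ i :: L, j ∈ F) → AllAbs D (prodOf X i L)) :
    ∃ (i0 : I) (L0 : List I), ∀ (ℓ : ℕ) (Z : 𝒱.Obj) (γ : T.W.H (Z.prod Z)),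
      IsAbsHodge D (Z.prod Z) Z.dim γ → LevelLe γ ℓ →
        (FullOn D γ (powerOf X i0 L0 ℓ) ↔ ∀ i L, FullOn D γ (prodOf X i L)) :=
  full_main D hpos hX hR h

end Pool.Agent.Results.MP_0da4e0_ag.MotivesOfBoundedLevel
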