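import Pool.Agent.R696.TF.Cat

/-!
# Full faithfulness of the Hodge realization and trilinear forms

Let `k` be an algebraically closed field of characteristic zero with an embedding `σ` in `ℂ`, `𝓜` the
category `𝓜_k` of motives for absolute Hodge cycles, `𝓗` the category of rational Hodge structures and
`R` the realization `H_σ`. The category `𝓜_k` is abelian and semisimple (Deligne). For every separated
scheme `X` of finite type over `k` let `H_i(X)(-j)` be the sum of the graded pieces `gr^W_w` of its Borel-Moore
homology, twisted; these are objects of `𝓜_k` by the construction of Deligne of the weight filtration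
from smooth projective varieties (Jannsen), and the long exact sequences of mixed realizations of a
closed subscheme and its complement give long exact sequences of the graded pieces in `𝓜_k`
(`Homology`; for all the fields of this structure see `Pool/Agent/R696/TF/Cat.lean`).

`Full X`: the functor `R` is full on `Hom(1, H_i(X)(-j))`, that is, every Hodge class in
`gr^W H_i(X)(-j)` is an absolute Hodge class. For smooth projective `X` of dimension `d` these are the
Hodge classes in `H^{2(d-j)}(X)(d-j)`; so Q1 for `k` and `σ` says that `Full X` holds for all smooth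
projective `X`.

Let `S` be the class of the smooth projective schemes. By resolution of singularities every smooth `X`
of dimension at most `d` is birational to a member of `S` of dimension at most `d` (`Models`). By the
Lefschetz theorem on classes of type `(1, 1)` and the hard Lefschetz theorem Hodge classes on the smooth
projective varieties of dimension at most three are algebraic, so `Full` holds for them (`hlow`).

The hypersurface of a trilinear form `T` over `k` is the affine cubic hypersurface `T(x, y, z) = 1`
(`hypS T`), `x`, `y`, `z` being three blocks of variables of any sizes. It is smooth.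
-/

set_option autoImplicit false

open CategoryTheory AlgebraicGeometry Pool.Agent.R696.TF Pool.Agent.Y116.UV

namespace Pool.Agent.Results.MP_0da4e0_ag.TrilinearForms

universe u v u' v'

/-- `R` is full on the morphisms from the unit object to `H_i(X)(-j)`, for all `i`, `j`. -/
def Full {k : Type} [Field k] {𝓜 : Type u} [Category.{v} 𝓜] [Abelian 𝓜] {𝓗 : Type u'}
    [Category.{v'} 𝓗] (R : 𝓜 ⥤ 𝓗) (one : 𝓜) (H : Homology k 𝓜) (X : Sch k) : Prop :=
  ∀ (i j : ℤ) (h : R.obj one ⟶ R.obj (H.obj i j X)), ∃ g : one ⟶ H.obj i j X, R.map g = h

/-- All the objects `H_i(X)(-j)` are in the class `C`. -/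
def In {k : Type} [Field k] {𝓜 : Type u} [Category.{v} 𝓜] [Abelian 𝓜] (C : 𝓜 → Prop)
    (H : Homology k 𝓜) (X : Sch k) : Prop := ∀ i j : ℤ, C (H.obj i j X)

/-- **The Hodge realization and trilinear forms.**
1. The following are equivalent: `R` is full on the smooth projective schemes (Q1); on all schemes; on
   the hypersurfaces `T(x, y, z) = 1` of all trilinear forms.
2. For every `d` the following are equivalent: `R` is full on the smooth projective schemes of
   dimension at most `d`; on all schemes of dimension at most `d`; on the hypersurfaces of the trilinear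
   forms with a block of at most `d + 2` variables.
3. `R` is full on the hypersurfaces of the trilinear forms with a block of at most five variables.
4. Let `C` be a class of motives which contains the middle terms `B` of exact sequences `A → B → D`
   with `A`, `D` in `C`, such as `𝓜_k^av`. If it contains the homology of the smooth projective schemes of
   dimension at most `d`, then it contains the homology of the hypersurfaces of the trilinear forms with
   a block of at most `d + 2` variables, and conversely if it contains the homology of the point. In
   particular (`d = 1`) the homology of the hypersurfaces of the trilinear forms with a block of at most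
   three variables is in `𝓜_k^av`.
5. The hypersurfaces are smooth. -/
theorem result (k : Type) [Field k] [CharZero k] (𝓜 : Type u) [Category.{v} 𝓜] [Abelian 𝓜]
    (hs : Semisimple 𝓜) (𝓗 : Type u') [Category.{v'} 𝓗] [Preadditive 𝓗] (R : 𝓜 ⥤ 𝓗) [R.Additive]
    (one : 𝓜) (H : Homology k 𝓜) (S : Sch k → Prop) (hpoint : S (aff k k)) (hS : Models S)
    (hlow : ∀ X : Sch k, FT True X → S X → topologicalKrullDim X.left ≤ (3 : ℕ) →
      Full R one H X) :
    ([∀ X : Sch k, FT True X → S X → Full R one H X,
      ∀ X : Sch k, FT True X → Full R one H X,
      ∀ (a b c : ℕ) (T : Fin a → Fin b → Fin c → k), Full R one H (hypS T)].TFAE) ∧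
    (∀ d : ℕ, [∀ X : Sch k, FT True X → S X → topologicalKrullDim X.left ≤ d → Full R one H X,
      ∀ X : Sch k, FT True X → topologicalKrullDim X.left ≤ d → Full R one H X,
      ∀ (a b c : ℕ) (T : Fin a → Fin b → Fin c → k), (a ≤ d + 2 ∨ b ≤ d + 2 ∨ c ≤ d + 2) →
        Full R one H (hypS T)].TFAE) ∧
    (∀ (a b c : ℕ) (T : Fin a → Fin b → Fin c → k), (a ≤ 5 ∨ b ≤ 5 ∨ c ≤ 5) →
      Full R one H (hypS T)) ∧
    (∀ C : 𝓜 → Prop, Thick C → In C H (aff k k) → ∀ d : ℕ,
      ((∀ X : Sch k, FT True X → S X → topologicalKrullDim X.left ≤ d → In C H X) ↔
        ∀ (a b c : ℕ) (T : Fin a → Fin b → Fin c → k), (a ≤ d + 2 ∨ b ≤ d + 2 ∨ c ≤ d + 2) →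
          In C H (hypS T))) ∧
    ∀ (a b c : ℕ) (T : Fin a → Fin b → Fin c → k), Smooth (hypS T).hom := by
  have hft : FT True (aff k k) := ft_aff True
  have hdim0 : topologicalKrullDim (aff k k).left = 0 := by
    rw [Pool.Agent.Z125.UN.topDim_aff]
    exact ringKrullDim_eq_zero_of_field k
  have hpt : ∀ i j : ℤ, FullAt R one (H.obj i j (aff k k)) := by
    refine hlow _ hft hpoint ?_
    rw [hdim0]
    exact_mod_cast Nat.zero_le 3
  have hM := H.mid (fullAt_thick hs R one) hpt
  refine ⟨hM.main_all hS, hM.main_dim hS, ?_, fun C hC hCpt d => ?_,
    fun _ _ _ _ => Pool.Agent.Z125.UN.smooth_hypS _⟩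
  · have h1 : ClassLe S _ 3 ↔ Block _ (3 + 2) := (hM.main_dim hS 3).out 0 2
    exact h1.1 hlow
  · exact ((H.mid hC hCpt).main_dim hS d).out 0 2

end Pool.Agent.Results.MP_0da4e0_ag.TrilinearForms
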